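import Pool.Agent.Y524G.Main

/-!
# Balanced trisections with the same core which are not diffeomorphic

Group trisections (Abrams, Gay, Kirby, *Group trisections and smooth 4-manifolds*, Geom. Topol. 22
(2018)) are the algebraic form of trisections of closed oriented smooth 4-manifolds: the three
handlebodies are three surjections of the fundamental group of the core (minus a disc, a free group
on `a_i, b_i`) onto free groups which kill the boundary word and have free pairwise push-outs
(`IsTri φ k`, a balanced `(g, k)` trisection).

For a balanced trisection `T` of `X` with core `Σ` let `T'` be `T` with the labels of the pieces
rotated. Then `T # T` and `T # T'` are two balanced trisections of `X # X`, and both have the core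
`Σ # Σ`: the two gluings of the 3-spheres differ by a rotation about the unknot in which the core
meets the sphere, which is isotopic to the identity through maps preserving the unknot. Their three
handlebody maps are `sumMaps φ φ` and `sumMaps φ (φ (· + 1))` (`φ` the maps of `T`). We give a
balanced `(3, 1)` group trisection `φ` such that these two `(6, 2)` group trisections are not
isomorphic, even after relabelling the three maps and by an arbitrary isomorphism of the closed
surface groups (`WeakIsoMaps`). A diffeomorphism which carries the pieces of one trisection onto the
pieces of the other one in any order would give such an isomorphism.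
-/

set_option autoImplicit false

namespace Pool.Agent.Results.MP_5efd29_gt.RotatedSum

open Pool.Agent.Y524F Pool.Agent.Y524G

theorem result : ∃ φ : Fin 3 → (FreeGroup (Fin 3 × Bool) →* FreeGroup (Fin 3)),
    IsTri φ 1 ∧ IsTri (sumMaps φ φ) 2 ∧ IsTri (sumMaps φ (fun i => φ (i + 1))) 2 ∧
    ¬ WeakIsoMaps (sumMaps φ φ) (sumMaps φ (fun i => φ (i + 1))) :=
  main5

end Pool.Agent.Results.MP_5efd29_gt.RotatedSum
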